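import Pool.Agent.Lib.MP_acafa7_al.F.IfaceG
import Pool.Agent.Lib.MP_acafa7_al.MS.Final

/-! Modules THMF and FINAL. -/

namespace MSG.F15

open MSG
open Classical

theorem thmf_st (h1 : CoarseStatement) (h2 : ActStatement) (h3 : ThmFCStatement) :
    ThmFStatement := by
  intro Γ _ hΓ A hc ht
  obtain ⟨V, X, hact, hms, hg⟩ := hΓ
  obtain ⟨C, hC⟩ := h1 V X Γ hms hg
  exact h3 V X.G C hC Γ (h2 V X Γ hms hg) A hc ht

/-- all torsion subgroups of a solvable subgroup are finite -/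
theorem torsion_finite (hF : ThmFStatement) (hS : SolvStatement) (Γ : Type) [Group Γ]
    (hΓ : IsMSGroup Γ) (H : Subgroup Γ) (hs : Group.IsSolvable H) (F : Subgroup Γ) (hFH : F ≤ H)
    (ht : ∀ x ∈ F, IsOfFinOrder x) : (F : Set Γ).Finite := by
  refine hS Γ (fun A hc hta => hF Γ hΓ A hc hta) F ?_ ht
  have := hs
  exact Group.isSolvable_of_isSolvable_injective (Subgroup.inclusion_injective hFH)

theorem final_st (hF : ThmFStatement) (hS : SolvStatement) (Γ : Type) [Group Γ]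
    (hΓ : IsMSGroup Γ) (H : Subgroup Γ) (hs : Group.IsSolvable H) :
    ∃ r : ℕ, r ≤ 2 ∧ ∃ A : Subgroup Γ, A ≤ H ∧ A.relIndex H ≠ 0 ∧
      Nonempty (A ≃* Multiplicative (Fin r → ℤ)) :=
  MSG.solvable_out hΓ H hs (fun F hFH ht => torsion_finite hF hS Γ hΓ H hs F hFH ht)

end MSG.F15
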